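import Pool.Agent.Lib_helper27.Persist.Main

set_option autoImplicit false

/-!
# MP_1be7de_an: weakly reversible variable-k polynomial dynamical systems are persistent

Every solution of a variable-k weakly reversible polynomial dynamical system stays in a compact
subset of the open orthant, uniformly over all admissible rate functions and all starting points in
a compact set. Solutions are differentiable at every time or absolutely continuous; the rate
functions are arbitrary (not even measurable) functions of time with the two-sided bound.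
-/

namespace Pool.Agent.Results.MP_1be7de_an.UniformPersistence

/-- An E-graph in `ℝ^n`: a finite directed graph whose vertices are points of `ℝ^n`. Every edge has
a source and a target `≠` source; parallel edges are allowed. -/
structure EGraph (n : ℕ) where
  /-- the vertices -/
  V : Finset (Fin n → ℝ)
  /-- the edges -/
  Edge : Type
  /-- there are finitely many edges -/
  finite : Fintype Edge
  /-- the source of an edge -/
  src : Edge → Fin n → ℝ
  /-- the target of an edge -/
  tgt : Edge → Fin n → ℝ
  /-- the source is a vertex -/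
  src_mem : ∀ e, src e ∈ V
  /-- the target is a vertex -/
  tgt_mem : ∀ e, tgt e ∈ V
  /-- there are no loops -/
  ne : ∀ e, tgt e ≠ src e

attribute [instance] EGraph.finite

variable {n : ℕ}

/-- The graph is weakly reversible: every edge lies on a directed cycle, that is, there is a directed
path from its target back to its source. -/
def EGraph.WeaklyReversible (G : EGraph n) : Prop :=
  ∀ e : G.Edge, Relation.ReflTransGen (fun u v => ∃ e' : G.Edge, G.src e' = u ∧ G.tgt e' = v)
    (G.tgt e) (G.src e)

/-- The time-dependent vector field `F` on the open orthant is a variable-k polynomial dynamical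
system generated by `G`, with rates `k_e(t)` between `ε` and `1 / ε`:
`F(t, x) = ∑_e k_e(t) x^(s(e)) (t(e) - s(e))`. -/
def EGraph.Generates (G : EGraph n) (ε : ℝ) (F : ℝ → (Fin n → ℝ) → Fin n → ℝ) : Prop :=
  ∃ k : G.Edge → ℝ → ℝ, (∀ e t, ε ≤ k e t ∧ k e t ≤ 1 / ε) ∧
    ∀ (t : ℝ) (x : Fin n → ℝ), (∀ i, 0 < x i) →
      F t x = ∑ e, (k e t * ∏ i, x i ^ G.src e i) • (G.tgt e - G.src e)

/-- `x` is a solution of `dx/dt = F(t, x)` on the interval `I`, which contains `0`, with values in
the open orthant: either `x` is differentiable and solves the equation at every time (one-sided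
derivatives at the end points of `I`), or `x` is absolutely continuous on the compact subintervals of
`I` and solves the equation at almost every time (a solution in the sense of Carathéodory). -/
structure IsSolution (F : ℝ → (Fin n → ℝ) → Fin n → ℝ) (I : Set ℝ) (x : ℝ → Fin n → ℝ) :
    Prop where
  interval : I.OrdConnected
  zero_mem : (0 : ℝ) ∈ I
  pos : ∀ t ∈ I, ∀ i, 0 < x t i
  ode : (∀ t ∈ I, HasDerivWithinAt x (F t (x t)) I t) ∨
    ((∀ a ∈ I, ∀ b ∈ I, ∀ i, AbsolutelyContinuousOnInterval (fun t => x t i) a b) ∧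
      ∀ᵐ t : ℝ, t ∈ I → HasDerivWithinAt x (F t (x t)) I t)

/-- Let `G` be a weakly reversible E-graph, `ε > 0` and `R` a real number. There is `ε₀ > 0` such
that every solution `x(t)`, `x(0) ∈ [1 / R, R]^n`, of every variable-k system generated by `G` with
rates between `ε` and `1 / ε` satisfies `ε₀ < x_i(t) < 1 / ε₀` for all `t ≥ 0`, all `i`. -/
theorem result (n : ℕ) (G : EGraph n) (hG : G.WeaklyReversible) (ε : ℝ) (hε : 0 < ε) (R : ℝ) :
    ∃ ε₀ : ℝ, 0 < ε₀ ∧ ∀ (F : ℝ → (Fin n → ℝ) → Fin n → ℝ), G.Generates ε F →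
      ∀ (I : Set ℝ) (x : ℝ → Fin n → ℝ), IsSolution F I x →
        (∀ i, 1 / R ≤ x 0 i ∧ x 0 i ≤ R) →
        ∀ t ∈ I, 0 ≤ t → ∀ i, ε₀ < x t i ∧ x t i < 1 / ε₀ := by
  classical
  set E : Finset ((Fin n → ℝ) × (Fin n → ℝ)) :=
    Finset.univ.image fun e : G.Edge => (G.src e, G.tgt e) with hE
  have hmemE : ∀ e : G.Edge, (G.src e, G.tgt e) ∈ E := fun e =>
    Finset.mem_image_of_mem _ (Finset.mem_univ e)
  set ε' : ℝ := ε / (Fintype.card G.Edge + 1) with hε'
  have hε'0 : 0 < ε' := by positivity
  have hε'le : ε' ≤ ε := by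
    rw [hε', div_le_iff₀ (by positivity)]
    have : (0 : ℝ) ≤ Fintype.card G.Edge := by positivity
    nlinarith
  have hrev : ∀ e ∈ E, Relation.ReflTransGen (fun u v => (u, v) ∈ E) e.2 e.1 := by
    intro p hp
    obtain ⟨e, _, rfl⟩ := Finset.mem_image.mp hp
    exact Relation.ReflTransGen.mono (fun u v ⟨e', h1, h2⟩ => h1 ▸ h2 ▸ hmemE e') _ _ (hG e)
  obtain ⟨L, hL⟩ := Lib_helper27.Persist.confinement_ac n E hrev ε' hε'0 (Real.log R)
  refine ⟨Real.exp (-(L + 1)), Real.exp_pos _, ?_⟩
  rintro F ⟨k, hk, hF⟩ I x hsol hstart t ht h0t i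
  -- the rates of the graph without parallel edges
  let k' : (Fin n → ℝ) × (Fin n → ℝ) → ℝ → ℝ := fun p t =>
    ∑ e ∈ Finset.univ.filter (fun e : G.Edge => (G.src e, G.tgt e) = p), k e t
  have hk' : ∀ p ∈ E, ∀ s ∈ I, ε' ≤ k' p s ∧ k' p s ≤ 1 / ε' := by
    intro p hp s _
    obtain ⟨e, _, rfl⟩ := Finset.mem_image.mp hp
    constructor
    · refine hε'le.trans ((hk e s).1.trans ?_)
      exact Finset.single_le_sum (f := fun e => k e s)
        (fun e' _ => hε.le.trans (hk e' s).1) (by simp)
    · have h1 : k' (G.src e, G.tgt e) s ≤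
          ∑ e' ∈ Finset.univ.filter (fun e' : G.Edge => (G.src e', G.tgt e') =
            (G.src e, G.tgt e)), 1 / ε := Finset.sum_le_sum fun e' _ => (hk e' s).2
      rw [Finset.sum_const, nsmul_eq_mul] at h1
      have h2 : ((Finset.univ.filter (fun e' : G.Edge => (G.src e', G.tgt e') =
            (G.src e, G.tgt e))).card : ℝ) ≤ Fintype.card G.Edge := by
        exact_mod_cast Finset.card_le_univ _
      have h3 : 1 / ε' = (Fintype.card G.Edge + 1) * (1 / ε) := by
        rw [hε']
        field_simp
      rw [h3]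
      refine h1.trans (mul_le_mul_of_nonneg_right (by linarith) (by positivity))
  have hfield : ∀ s ∈ I, F s (x s) =
      ∑ p ∈ E, (k' p s * ∏ i : Fin n, (x s i) ^ (p.1 i)) • (p.2 - p.1) := by
    intro s hs
    rw [hF s (x s) (hsol.pos s hs)]
    rw [← Finset.sum_fiberwise_of_maps_to (s := Finset.univ) (t := E)
      (g := fun e : G.Edge => (G.src e, G.tgt e)) fun e _ => hmemE e]
    refine Finset.sum_congr rfl fun p _ => ?_
    simp only [k', Finset.sum_mul, Finset.sum_smul]
    refine Finset.sum_congr rfl fun e he => ?_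
    have hep : (G.src e, G.tgt e) = p := (Finset.mem_filter.mp he).2
    rw [← hep]
  have hac : ∀ s ∈ I, ∀ i : Fin n, AbsolutelyContinuousOnInterval (fun s => x s i) 0 s := by
    intro s hs i
    rcases hsol.ode with hd | ⟨hd, _⟩
    · refine Lib_helper27.Persist.ac_of_hasDeriv G.src (fun e => G.tgt e - G.src e) ε k I
        hsol.interval (fun e s _ => hk e s) hε x hsol.pos (fun s hs => ?_) hsol.zero_mem hs i
      rw [← hF s (x s) (hsol.pos s hs)]
      exact hd s hs
    · exact hd 0 hsol.zero_mem s hs i
  have hde : ∀ᵐ s : ℝ, s ∈ I → HasDerivWithinAt x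
      (∑ p ∈ E, (k' p s * ∏ i : Fin n, (x s i) ^ (p.1 i)) • (p.2 - p.1)) I s := by
    rcases hsol.ode with hd | ⟨_, hd⟩
    · refine Filter.Eventually.of_forall fun s hs => ?_
      rw [← hfield s hs]
      exact hd s hs
    · filter_upwards [hd] with s hds hs
      rw [← hfield s hs]
      exact hds hs
  have hlog : ∀ i, |Real.log (x 0 i)| ≤ Real.log R := by
    intro i
    have hx0 := hsol.pos 0 hsol.zero_mem i
    obtain ⟨h1, h2⟩ := hstart i
    have hR : 0 < R := lt_of_lt_of_le hx0 h2
    rw [abs_le]
    constructor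
    · have h3 := Real.log_le_log (by positivity) h1
      rwa [one_div, Real.log_inv] at h3
    · exact Real.log_le_log hx0 h2
  have hbox := hL k' I hsol.interval hsol.zero_mem hk' x hsol.pos hac hde hlog t ht h0t i
  rw [abs_le] at hbox
  have hxt := hsol.pos t ht i
  constructor
  · rw [← Real.exp_log hxt]
    exact Real.exp_lt_exp.mpr (by linarith [hbox.1])
  · have h1 : 1 / Real.exp (-(L + 1)) = Real.exp (L + 1) := by
      rw [Real.exp_neg]
      simp
    rw [h1, ← Real.exp_log hxt]
    exact Real.exp_lt_exp.mpr (by linarith [hbox.2])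

end Pool.Agent.Results.MP_1be7de_an.UniformPersistence
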